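import Mathlib
import Pool.Agent.H852.QP.HighWald

set_option autoImplicit false

/-!
# Waldschmidt constants of generic points of projective spaces: quasi-polynomial precision

Let `N ≥ 2` and `r ≥ 5 ^ (84 N ^ 2)`, let `k` be an algebraically closed field of any
characteristic, and let `X` be a set of `r` points of `ℙ ^ N` over `k` whose coordinates are
algebraically independent over the prime field. Then `α(I(X) ^ (m)) ≥ m r ^ (1 / N)` for all
`1 ≤ m ≤ exp ((log r) ^ 2 / (16 N ^ 3))`, and the Waldschmidt constant is at least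
`(1 - N exp (-4 (log r) ^ 2 / (31 N ^ 2))) r ^ (1 / N)`.
-/

namespace Pool.Agent.Results.MP_5499e5_ag.QuasiPolynomialEveryDimension

open MvPolynomial Filter Topology

universe u

/-- The form `F` vanishes to order at least `m` at the point `(1 : p 0 : … : p (N - 1))`. -/
def VanishesAt {k : Type u} [Field k] {N : ℕ} (p : Fin N → k) (m : ℕ)
    (F : MvPolynomial (Fin (N + 1)) k) : Prop :=
  F ∈ (Ideal.span (Set.range fun j : Fin N => X j.succ - C (p j) * X 0) :
    Ideal (MvPolynomial (Fin (N + 1)) k)) ^ m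

/-- `α(I(X) ^ (m))`: the least degree of a nonzero form vanishing to order at least `m` at every
point `(1 : P i 0 : … : P i (N - 1))`. -/
noncomputable def alpha {k : Type u} [Field k] {N r : ℕ} (P : Fin r → Fin N → k) (m : ℕ) : ℕ :=
  sInf {d | ∃ F : MvPolynomial (Fin (N + 1)) k, F.IsHomogeneous d ∧ F ≠ 0 ∧
    ∀ i, VanishesAt (P i) m F}

/-- The affine coordinates of the points are algebraically independent over the prime field. -/
def Generic {k : Type u} [Field k] {N r : ℕ} (P : Fin r → Fin N → k) : Prop :=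
  AlgebraicIndependent (⊥ : Subfield k) (fun ij : Fin r × Fin N => P ij.1 ij.2)

theorem result (N : ℕ) (hN : 2 ≤ N) (r : ℕ) (hr : 5 ^ (84 * N ^ 2) ≤ r) (k : Type u) [Field k]
    [IsAlgClosed k] (P : Fin r → Fin N → k) (hP : Generic P) :
    (∀ m : ℕ, 0 < m → (m : ℝ) ≤ Real.exp (Real.log r ^ 2 / (16 * (N : ℝ) ^ 3)) →
      (m : ℝ) * (r : ℝ) ^ ((1 : ℝ) / N) ≤ alpha P m) ∧
    ∃ e : ℝ, Tendsto (fun m : ℕ => (alpha P m : ℝ) / m) atTop (𝓝 e) ∧
      (1 - (N : ℝ) * Real.exp (-(4 * Real.log r ^ 2 / (31 * (N : ℝ) ^ 2)))) *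
        (r : ℝ) ^ ((1 : ℝ) / N) ≤ e := by
  obtain ⟨E, rfl⟩ : ∃ E, N = E + 1 := ⟨N - 1, by omega⟩
  constructor
  · intro m hm hmX
    exact Pool.Agent.H852.QP.high_exact (by omega) hr hP hm hmX
      (Pool.Agent.H852.QP.hasFormE_alp P m)
  · refine Pool.Agent.H852.QP.exists_waldE P fun m => ?_
    have h1 := Pool.Agent.H852.QP.high_low hr hP (Pool.Agent.H852.QP.hasFormE_alp P m)
    refine le_trans ?_ h1
    obtain ⟨x, hx⟩ : ∃ x, x = Real.exp (-(4 * Real.log r ^ 2 / (31 * ((E + 1 : ℕ) : ℝ) ^ 2))) :=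
      ⟨_, rfl⟩
    obtain ⟨L, hL⟩ : ∃ L, L = (r : ℝ) ^ ((1 : ℝ) / ((E + 1 : ℕ) : ℝ)) := ⟨_, rfl⟩
    rw [← hx, ← hL]
    have hx0 : 0 < x := by rw [hx]; exact Real.exp_pos _
    have hL0 : 0 ≤ L := by rw [hL]; positivity
    have hm0 : (0 : ℝ) ≤ m := Nat.cast_nonneg m
    have h2 : (1 - ((E + 1 : ℕ) : ℝ) * x) * L * m = (1 - ((E + 1 : ℕ) : ℝ) * x) * (m * L) := by
      ring
    rw [h2]
    refine mul_le_mul_of_nonneg_right ?_ (by positivity)
    push_cast
    linarith

end Pool.Agent.Results.MP_5499e5_ag.QuasiPolynomialEveryDimension
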